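import Pool.Agent.Lib.MP_8f66f0_al_LG.Defs
import Pool.Agent.Lib.MP_8f66f0_al_BN.NCF

/-! The classes of `LG/Defs` and `BN/NCD` agree; the theorem. -/

set_option autoImplicit false

namespace Pool.Agent.LinGr

theorem toMed {V : Type} {G : SimpleGraph V} (h : IsMedian G) : CC.IsMedian G := ⟨h.conn, h.med⟩

theorem toEA {G : Type} [Group G] (h : EA G) : WhVan.EA G := by
  induction h with
  | fin h => exact .fin h
  | ab h => exact .ab h
  | sub f hf _ ih => exact .sub f hf ih
  | quot f hf _ ih => exact .quot f hf ih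
  | ext N _ _ ih1 ih2 => exact .ext N ih1 ih2
  | directed S h1 h2 h3 _ ih => exact .directed S h1 h2 h3 ih

theorem toYN {Γ : Type} [Group Γ] (h : YN Γ) : WhVan.YN Γ := by
  induction h with
  | fin h => exact .fin h
  | gl d R m Γ hm hR hΓ => exact .gl d R m Γ hm hR hΓ
  | gl2Q σ R j Γ hj hΓ => exact .gl2Q σ R j Γ hj hΓ
  | cpt d K Γ hc hΓ => exact .cpt d K Γ hc hΓ
  | iso e _ ih => exact .iso e ih
  | sub H _ ih => exact .sub H ih
  | directed S h1 h2 h3 _ ih => exact .directed S h1 h2 h3 ih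
  | ext f _ _ ih1 ih2 => exact .ext f ih1 ih2
  | tree T hT hadj _ ih => exact .tree T hT hadj ih
  | cube G N hG hN hadj _ ih => exact .cube G N (toMed hG) hN hadj ih
  | bld F v d ρ hdet _ ih => exact .bld F v d ρ hdet ih
  | red d R ρ _ ih => exact .red d R ρ ih

theorem toNC {Γ : Type} [Group Γ] (h : NC Γ) : WhVan.NC Γ := by
  induction h with
  | yn h ht => exact .yn (toYN h) ht
  | iso e _ ih => exact .iso e ih
  | sub H _ ih => exact .sub H ih
  | directed S h1 h2 h3 _ ih => exact .directed S h1 h2 h3 ih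
  | ext f _ _ ih1 ih2 => exact .ext f ih1 ih2
  | tree T hT hadj hinv _ ih => exact .tree T hT hadj hinv ih
  | cube G N hG hN hadj _ ih => exact .cube G N (toMed hG) hN hadj ih
  | bld F v d ρ hdet _ ih => exact .bld F v d ρ hdet ih
  | red d R ρ _ ih => exact .red d R ρ ih
  | ea θ hQ _ ih => exact .ea θ (toEA hQ) ih

/-- The theorem. -/
theorem nc_k1 {Γ : Type} [Group Γ] (h : NC Γ) (L : Type) [CommRing L] [IsDomain L]
    (hL : IsEuc L) : K1Units L Γ :=
  WhVan.nc_all (toNC h) L hL

end Pool.Agent.LinGr
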