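import Mathlib

/-! The definitions which are used in the theorem on the vanishing of the Whitehead groups of
torsion free linear groups of positive characteristic. -/

set_option autoImplicit false

namespace Pool.Agent.LinGr

open scoped Pointwise

/-- Euclidean domains, as a property. -/
def IsEuc (L : Type) [CommRing L] : Prop :=
  ∃ N : L → ℕ, ∀ a b : L, b ≠ 0 → ∃ q r : L, a = q * b + r ∧ (r = 0 ∨ N r < N b)

/-- `K_1(LΓ)` is generated by the units of `L` and the elements of `Γ`: every invertible matrix
over `LΓ`, stabilised by an identity block, is `u g` (`u` a unit of `L`, `g` in `Γ`) on one diagonal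
entry times a product of commutators of invertible matrices. For `L = ℤ` this is the frozen form
of `Wh(Γ) = 0`. -/
def K1Units (L Γ : Type) [CommRing L] [Group Γ] : Prop :=
  ∀ (n : ℕ) (A : (Matrix (Fin n) (Fin n) (MonoidAlgebra L Γ))ˣ),
    ∃ (m : ℕ) (g : Γ) (u : Lˣ)
      (C : (Matrix (Fin n ⊕ Fin (m + 1)) (Fin n ⊕ Fin (m + 1)) (MonoidAlgebra L Γ))ˣ),
      C ∈ commutator (Matrix (Fin n ⊕ Fin (m + 1)) (Fin n ⊕ Fin (m + 1))
              (MonoidAlgebra L Γ))ˣ ∧
      Matrix.fromBlocks (↑A : Matrix (Fin n) (Fin n) (MonoidAlgebra L Γ))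
          (0 : Matrix (Fin n) (Fin (m + 1)) (MonoidAlgebra L Γ))
          (0 : Matrix (Fin (m + 1)) (Fin n) (MonoidAlgebra L Γ))
          (1 : Matrix (Fin (m + 1)) (Fin (m + 1)) (MonoidAlgebra L Γ)) =
        Matrix.diagonal (fun i : Fin n ⊕ Fin (m + 1) =>
            if i = Sum.inr (0 : Fin (m + 1)) then
              (MonoidAlgebra.single g ((u : L)) : MonoidAlgebra L Γ) else 1) *
          (↑C : Matrix (Fin n ⊕ Fin (m + 1)) (Fin n ⊕ Fin (m + 1)) (MonoidAlgebra L Γ))

/-- Elementary amenable groups: the least class of groups which contains all finite and all abelian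
groups and is closed under subgroups, quotients, extensions and directed unions. -/
inductive EA : (G : Type) → [Group G] → Prop
  | fin {G : Type} [Group G] : Finite G → EA G
  | ab {G : Type} [Group G] : (∀ x y : G, x * y = y * x) → EA G
  | sub {G H : Type} [Group G] [Group H] (f : H →* G) : Function.Injective f → EA G → EA H
  | quot {G H : Type} [Group G] [Group H] (f : G →* H) : Function.Surjective f → EA G → EA H
  | ext {G : Type} [Group G] (N : Subgroup G) [N.Normal] : EA N → EA (G ⧸ N) → EA G
  | directed {G : Type} [Group G] (S : Set (Subgroup G)) : S.Nonempty →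
      DirectedOn (· ≤ ·) S → (∀ g : G, ∃ K ∈ S, g ∈ K) → (∀ K ∈ S, EA K) → EA G

/-- Median graphs (the 1-skeletons of the CAT(0) cube complexes, by Chepoi's theorem): connected
graphs in which any three vertices have a unique median. -/
structure IsMedian {V : Type} (G : SimpleGraph V) : Prop where
  conn : G.Connected
  med : ∀ u v w : V, ∃! m : V, G.dist u m + G.dist m v = G.dist u v ∧
    G.dist v m + G.dist m w = G.dist v w ∧ G.dist u m + G.dist m w = G.dist u w

/-- `G` contains no cube of dimension `n`. -/
def NoCube {V : Type} (G : SimpleGraph V) (n : ℕ) : Prop :=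
  ∀ f : (Fin n → Bool) → V, Function.Injective f →
    ¬ ∀ (x : Fin n → Bool) (i : Fin n), G.Adj (f x) (f (Function.update x i (!x i)))

/-- `c` is the set of vertices of a cube of the graph `G`. -/
def IsGCube {V : Type} (G : SimpleGraph V) (c : Set V) : Prop :=
  ∃ (n : ℕ) (f : (Fin n → Bool) → V), Function.Injective f ∧
    (∀ (x : Fin n → Bool) (i : Fin n), G.Adj (f x) (f (Function.update x i (!x i)))) ∧
    c = Set.range f

/-- The subgroup `D` of `Γ` fixes a lattice (the lattice `h O ^ d`, where `O` is the valuation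
ring of `v`). -/
def LatFix {F : Type} [Field F] (v : Valuation F (WithZero (Multiplicative ℤ))) {d : ℕ}
    {Γ : Type} [Group Γ] (ρ : Γ →* Matrix.GeneralLinearGroup (Fin d) F) (D : Subgroup Γ) : Prop :=
  ∃ h : Matrix.GeneralLinearGroup (Fin d) F, ∀ g ∈ D, ∀ i j : Fin d,
    v ((h⁻¹ * ρ g * h : Matrix.GeneralLinearGroup (Fin d) F) i j) ≤ 1

/-- The group `Γ` of matrices over a field `K` of characteristic `0` is bounded at infinity: for
all `a ∈ K` algebraic over `ℚ` and all conjugates `β` of `a` in `ℂ` there is an embedding `φ` of `K`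
in `ℂ` with `φ(a) = β` such that the entries of the matrices of `φ(Γ)` are bounded (for example
groups of orthogonal matrices over `ℚ(x_i : i ∈ σ)`). -/
def CptInf {K : Type} [Field K] [CharZero K] {d : ℕ}
    (Γ : Subgroup (Matrix.GeneralLinearGroup (Fin d) K)) : Prop :=
  ∀ a : K, IsAlgebraic ℚ a → ∀ β : ℂ, Polynomial.aeval β (minpoly ℚ a) = 0 →
    ∃ φ : K →+* ℂ, φ a = β ∧ ∃ C : ℝ, ∀ g ∈ Γ, ∀ i j : Fin d,
      ‖φ ((g : Matrix (Fin d) (Fin d) K) i j)‖ ≤ C

/-- The least class of groups which contains

* all finite groups;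
* all torsion free subgroups of `GL_d(R)`, for all `d` and all commutative rings `R` of positive
  characteristic, and of `GL_2(R)`, for all rings `R` which can be embedded in a purely
  transcendental extension of `ℚ` (the fraction field of the polynomial ring in the variables `σ`
  over `ℤ`);
* all torsion free subgroups of `GL_d(K)`, for all `d` and all fields `K` of characteristic `0`,
  which are bounded at infinity (`CptInf`);

and is closed under isomorphism, subgroups, directed unions, extensions, and

* actions on trees with all vertex stabilizers in the class (inversions of edges are allowed, and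
  there is no condition on the edge stabilizers);
* actions on CAT(0) cube complexes of finite dimension with all vertex stabilizers in the class:
  the group acts on the `1`-skeleton `G`, a median graph which contains no cube of dimension
  `N + 1` (inversions are allowed, the graph may be locally infinite, and there is no condition on
  the stabilizers of the cubes);
* actions on the affine buildings of `GL_d`: if `Γ` is mapped by `ρ` to `GL_d(F)`, for a field `F`
  with a discrete valuation `v` (with an arbitrary residue field), the determinants of `ρ(Γ)` have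
  the value `1`, and all subgroups `D` of `Γ` which fix a lattice are in the class, then `Γ` is in
  the class;
* representations `ρ` of `Γ` in `GL_d(R)`, for all `d` and arbitrary commutative rings `R`: if all
  subgroups `D` of `Γ` such that the coefficients of the characteristic polynomials of all elements
  of `ρ(D)` are integral over `ℤ` are in the class, then `Γ` is in the class. -/
inductive YN : (Γ : Type) → [Group Γ] → Prop
  | fin {Γ : Type} [Group Γ] : Finite Γ → YN Γ
  | gl (d : ℕ) (R : Type) [CommRing R] (m : ℕ)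
      (Γ : Subgroup (Matrix.GeneralLinearGroup (Fin d) R)) :
      0 < m → (m : R) = 0 → (∀ g ∈ Γ, ∀ n : ℕ, 0 < n → g ^ n = 1 → g = 1) → YN Γ
  | gl2Q (σ R : Type) [CommRing R] (j : R →+* FractionRing (MvPolynomial σ ℤ))
      (Γ : Subgroup (Matrix.GeneralLinearGroup (Fin 2) R)) : Function.Injective j →
      (∀ g ∈ Γ, ∀ n : ℕ, 0 < n → g ^ n = 1 → g = 1) → YN Γ
  | cpt (d : ℕ) (K : Type) [Field K] [CharZero K]
      (Γ : Subgroup (Matrix.GeneralLinearGroup (Fin d) K)) : CptInf Γ →
      (∀ g ∈ Γ, ∀ n : ℕ, 0 < n → g ^ n = 1 → g = 1) → YN Γ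
  | iso {Γ Γ' : Type} [Group Γ] [Group Γ'] (e : Γ ≃* Γ') : YN Γ → YN Γ'
  | sub {Γ : Type} [Group Γ] (H : Subgroup Γ) : YN Γ → YN H
  | directed {Γ : Type} [Group Γ] (S : Set (Subgroup Γ)) : S.Nonempty →
      DirectedOn (· ≤ ·) S → (∀ g : Γ, ∃ K ∈ S, g ∈ K) → (∀ K ∈ S, YN K) → YN Γ
  | ext {Γ Q : Type} [Group Γ] [Group Q] (f : Γ →* Q) : YN f.ker → YN Q → YN Γ
  | tree {Γ V : Type} [Group Γ] [MulAction Γ V] (T : SimpleGraph V) : T.IsTree →
      (∀ (g : Γ) (v w : V), T.Adj v w → T.Adj (g • v) (g • w)) →
      (∀ v : V, YN (MulAction.stabilizer Γ v)) → YN Γ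
  | cube {Γ V : Type} [Group Γ] [MulAction Γ V] (G : SimpleGraph V) (N : ℕ) : IsMedian G →
      NoCube G (N + 1) → (∀ (g : Γ) (v w : V), G.Adj v w → G.Adj (g • v) (g • w)) →
      (∀ v : V, YN (MulAction.stabilizer Γ v)) → YN Γ
  | bld {Γ : Type} [Group Γ] (F : Type) [Field F] (v : Valuation F (WithZero (Multiplicative ℤ)))
      (d : ℕ) (ρ : Γ →* Matrix.GeneralLinearGroup (Fin d) F) :
      (∀ g, v (ρ g : Matrix (Fin d) (Fin d) F).det = 1) →
      (∀ D : Subgroup Γ, LatFix v ρ D → YN D) → YN Γ
  | red {Γ : Type} [Group Γ] (d : ℕ) (R : Type) [CommRing R]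
      (ρ : Γ →* Matrix.GeneralLinearGroup (Fin d) R) :
      (∀ D : Subgroup Γ, (∀ g ∈ D, ∀ k : ℕ,
        IsIntegral ℤ ((ρ g : Matrix (Fin d) (Fin d) R).charpoly.coeff k)) → YN D) → YN Γ

/-- The least class of groups which contains all torsion free groups of the class `YN` (so all
torsion free subgroups of `GL_d(R)`, for all `d` and all commutative rings `R` of positive
characteristic), and is closed under isomorphism, subgroups, directed unions, extensions, and

* actions on trees without inversions with all vertex stabilizers in the class;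
* actions on CAT(0) cube complexes of finite dimension with the stabilizers of all cubes in the
  class: the group acts on the `1`-skeleton `G`, a median graph which contains no cube of dimension
  `N + 1` (it may be locally infinite), and `c` is the set of vertices of a cube;
* actions on the affine buildings of `GL_d` and representations in `GL_d(R)`, as in the definition
  of `YN`;
* elementary amenable quotients: if `θ` is a homomorphism from `Γ` to an elementary amenable group,
  and all subgroups `U` of `Γ` with finite image `θ(U)` are in the class, then `Γ` is in the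
  class.

(All groups in the class are torsion free.) -/
inductive NC : (Γ : Type) → [Group Γ] → Prop
  | yn {Γ : Type} [Group Γ] : YN Γ → (∀ (g : Γ) (n : ℕ), 0 < n → g ^ n = 1 → g = 1) → NC Γ
  | iso {Γ Γ' : Type} [Group Γ] [Group Γ'] (e : Γ ≃* Γ') : NC Γ → NC Γ'
  | sub {Γ : Type} [Group Γ] (H : Subgroup Γ) : NC Γ → NC H
  | directed {Γ : Type} [Group Γ] (S : Set (Subgroup Γ)) : S.Nonempty →
      DirectedOn (· ≤ ·) S → (∀ g : Γ, ∃ K ∈ S, g ∈ K) → (∀ K ∈ S, NC K) → NC Γ
  | ext {Γ Q : Type} [Group Γ] [Group Q] (f : Γ →* Q) : NC f.ker → NC Q → NC Γ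
  | tree {Γ V : Type} [Group Γ] [MulAction Γ V] (T : SimpleGraph V) : T.IsTree →
      (∀ (g : Γ) (v w : V), T.Adj v w → T.Adj (g • v) (g • w)) →
      (∀ (g : Γ) (v w : V), T.Adj v w → ¬ (g • v = w ∧ g • w = v)) →
      (∀ v : V, NC (MulAction.stabilizer Γ v)) → NC Γ
  | cube {Γ V : Type} [Group Γ] [MulAction Γ V] (G : SimpleGraph V) (N : ℕ) : IsMedian G →
      NoCube G (N + 1) → (∀ (g : Γ) (v w : V), G.Adj v w → G.Adj (g • v) (g • w)) →
      (∀ c : Set V, IsGCube G c → NC (MulAction.stabilizer Γ c)) → NC Γ
  | bld {Γ : Type} [Group Γ] (F : Type) [Field F] (v : Valuation F (WithZero (Multiplicative ℤ)))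
      (d : ℕ) (ρ : Γ →* Matrix.GeneralLinearGroup (Fin d) F) :
      (∀ g, v (ρ g : Matrix (Fin d) (Fin d) F).det = 1) →
      (∀ D : Subgroup Γ, LatFix v ρ D → NC D) → NC Γ
  | red {Γ : Type} [Group Γ] (d : ℕ) (R : Type) [CommRing R]
      (ρ : Γ →* Matrix.GeneralLinearGroup (Fin d) R) :
      (∀ D : Subgroup Γ, (∀ g ∈ D, ∀ k : ℕ,
        IsIntegral ℤ ((ρ g : Matrix (Fin d) (Fin d) R).charpoly.coeff k)) → NC D) → NC Γ
  | ea {Γ Q : Type} [Group Γ] [Group Q] (θ : Γ →* Q) : EA Q →
      (∀ U : Subgroup Γ, Finite (U.map θ) → NC U) → NC Γ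

end Pool.Agent.LinGr
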